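import Pool.Agent.Results.MP_a54f13_nt.TwoPointFunctions
import Pool.Agent.R314.JN.Fub

/-!
# Gaussian fourth moments imply decorrelation of the squares in mean (MP_a54f13_nt)

The plane is `ℂ`, with the upper half plane `HH` and `dμ = dx dy / y²`. `dx f z`, `dy f z` are the
partial derivatives `fderiv ℝ f z 1`, `fderiv ℝ f z I`; `TF U φ` says that `φ : ℂ → ℝ` is smooth
with compact support contained in `U`. For `r > 0` and real `b` the map `z ↦ r z + b` is an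
isometry of the hyperbolic plane, and every pair of points is related by exactly one of them.

Proof idea. By the two-point result the correlation of the squares at each displacement is
asymptotically at least its value for independent points. The integral over all displacements is
the product of two one-point integrals, whose limit is given by quantum unique ergodicity. So the
correlations converge in the mean.
-/

set_option autoImplicit false
open MeasureTheory Filter Topology Complex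
open scoped ContDiff

namespace Pool.Agent.Results.MP_a54f13_nt.MeanDecorrelation

open Pool.Agent.W745.RW (TF dx dy)

/-- the open upper half plane -/
def HH : Set ℂ := {z | 0 < z.im}

/-- the eigenvalue `1/4 + t²` -/
noncomputable def ev (t : ℝ) : ℝ := 1 / 4 + t ^ 2

/-- `f` is a smooth real solution of `-y² (∂x² + ∂y²) f = (1/4 + t²) f` on the upper half plane -/
def Eig (t : ℝ) (f : ℂ → ℝ) : Prop :=
  ContDiffOn ℝ ∞ f HH ∧ ∀ z ∈ HH, -(z.im ^ 2 * (dx (dx f) z + dy (dy f) z)) = ev t * f z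

/-- the operator `f ↦ lam^{-1/2} y (∂x f - i ∂y f)` -/
noncomputable def RO (lam : ℝ) (f : ℂ → ℂ) (z : ℂ) : ℂ :=
  ((z.im / √lam : ℝ) : ℂ) * (dx f z - I * dy f z)

/-- quantum unique ergodicity in microlocal form: `∫ φ f (RO^k f) dμ → ∫ φ dμ` for `k = 0`, and
`→ 0` for `k ≥ 1` -/
def QUE (t : ℕ → ℝ) (f : ℕ → ℂ → ℝ) : Prop :=
  ∀ φ, TF HH φ → ∀ k : ℕ, Tendsto (fun n => ∫ z, ((φ z / z.im ^ 2 : ℝ) : ℂ) *
    ((f n z : ℂ) * (RO (ev (t n)))^[k] (fun w => (f n w : ℂ)) z)) atTop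
    (𝓝 (if k = 0 then ((∫ z, φ z / z.im ^ 2 : ℝ) : ℂ) else 0))

/-- the integral `∫ ψ F dμ` -/
noncomputable def II (ψ F : ℂ → ℝ) : ℝ := ∫ z, ψ z * F z / z.im ^ 2

/-- the isometry `z ↦ r z + b` -/
noncomputable def aff (r b : ℝ) (z : ℂ) : ℂ := r • z + (b : ℂ)

/-- the correlation at the displacement `γ = (r, b)`, that is `γ z = r z + b`: the integral of
`ψ₁(z) F(z) ψ₂(γz) F(γz)` with the weight `y / (y² (r y)²) = 1 / (r² y³)`, for which the integral
over all `(r, b)` is `∫ ψ₁ F dμ ∫ ψ₂ F dμ` -/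
noncomputable def cor (ψ₁ ψ₂ F : ℂ → ℝ) (p : ℝ × ℝ) : ℝ :=
  ∫ z : ℂ, z.im * (ψ₁ z * F z / z.im ^ 2) *
    (ψ₂ (aff p.1 p.2 z) * F (aff p.1 p.2 z) / (aff p.1 p.2 z).im ^ 2)

lemma HHo : IsOpen HH := isOpen_lt continuous_const continuous_im

lemma sy : ContDiffOn ℝ ∞ (fun z : ℂ => (z.im ^ 2)⁻¹) HH := by
  refine ContDiffOn.inv ((imCLM.contDiff.pow 2).contDiffOn) fun z hz => ?_
  exact pow_ne_zero 2 (ne_of_gt hz)

lemma gd {ψ F : ℂ → ℝ} (hψ : TF HH ψ) (hF : ContinuousOn F HH) :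
    Continuous (fun z => ψ z * F z / z.im ^ 2) ∧
      HasCompactSupport (fun z => ψ z * F z / z.im ^ 2) ∧
      tsupport (fun z => ψ z * F z / z.im ^ 2) ⊆ HH := by
  have e : (fun z => ψ z * F z / z.im ^ 2) = fun z => ψ z * (F z * (z.im ^ 2)⁻¹) := by
    funext z; rw [div_eq_mul_inv]; ring
  rw [e]
  refine ⟨Pool.Agent.Y265.RW.cont_mulr HHo hψ (hF.mul sy.continuousOn), hψ.2.1.mul_right, ?_⟩
  exact (tsupport_mul_subset_left (f := ψ)).trans hψ.2.2

/-- the mass converges -/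
lemma mass {t : ℕ → ℝ} {f : ℕ → ℂ → ℝ} (hq : QUE t f) {φ : ℂ → ℝ} (hφ : TF HH φ) :
    Tendsto (fun n => ∫ z, φ z * f n z ^ 2 / z.im ^ 2) atTop (𝓝 (∫ z, φ z * 1 / z.im ^ 2)) := by
  have h1 := hq φ hφ 0
  rw [if_pos rfl] at h1
  have e : ∫ z, φ z * 1 / z.im ^ 2 = ∫ z, φ z / z.im ^ 2 := by simp only [mul_one]
  rw [e]
  refine Pool.Agent.Y265.HY.toR (h1.congr fun n => ?_)
  rw [← integral_complex_ofReal]
  congr 1; funext z
  simp only [Function.iterate_zero, id_eq]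
  push_cast; ring

/-- the lower bound at one displacement -/
lemma lower {t : ℕ → ℝ} (ht : Tendsto t atTop atTop) {f : ℕ → ℂ → ℝ}
    (hf : ∀ n, Eig (t n) (f n)) (hq : QUE t f)
    (h4 : ∀ φ, TF HH φ → Tendsto (fun n => II φ (fun z => f n z ^ 4)) atTop
        (𝓝 (3 * II φ (fun _ => 1)))) {ψ₁ ψ₂ : ℂ → ℝ} (h1 : TF HH ψ₁) (h2 : TF HH ψ₂)
    (p1 : ∀ z, 0 ≤ ψ₁ z) (p2 : ∀ z, 0 ≤ ψ₂ z) (p : ℝ × ℝ) {ε : ℝ} (hε : 0 < ε) :
    ∀ᶠ n in atTop, cor ψ₁ ψ₂ (fun _ => 1) p - ε ≤ cor ψ₁ ψ₂ (fun z => f n z ^ 2) p := by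
  by_cases hr : 0 < p.1
  · set Ψ : ℂ → ℝ := fun z => z.im * ψ₁ z * (ψ₂ (aff p.1 p.2 z) / (p.1 * z.im) ^ 2) with hΨ
    have t2 : TF HH (fun z => ψ₂ (aff p.1 p.2 z)) :=
      Pool.Agent.Results.MP_a54f13_nt.TwoPointFunctions.TF_aff h2 hr p.2
    have s1 : ContDiffOn ℝ ∞ (fun z : ℂ => z.im * ψ₂ (aff p.1 p.2 z) * ((p.1 * z.im) ^ 2)⁻¹) HH := by
      refine ContDiffOn.mul ((imCLM.contDiff.mul t2.1).contDiffOn) ?_
      refine ContDiffOn.inv (((contDiff_const.mul imCLM.contDiff).pow 2).contDiffOn) fun z hz => ?_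
      exact pow_ne_zero 2 (mul_pos hr hz).ne'
    have tΨ : TF HH Ψ := by
      have := Pool.Agent.TH294.RS.TF.mulc HHo h1 s1
      have e : Ψ = fun z => ψ₁ z * (z.im * ψ₂ (aff p.1 p.2 z) * ((p.1 * z.im) ^ 2)⁻¹) := by
        funext z; rw [hΨ]; simp only [div_eq_mul_inv]; ring
      rw [e]; exact this
    have pΨ : ∀ z, 0 ≤ Ψ z := by
      intro z
      by_cases hz : z ∈ HH
      · have : 0 < z.im := hz
        have := p1 z; have := p2 (aff p.1 p.2 z)
        simp only [hΨ]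
        positivity
      · simp only [hΨ, Pool.Agent.TH294.RS.TF.zero h1 hz]; simp
    obtain ⟨-, -, L⟩ := Pool.Agent.Results.MP_a54f13_nt.TwoPointFunctions.result t ht f hf hq
      p.1 p.2 hr Ψ tΨ
    have key := L h4 pΨ ε hε
    have e1 : ∀ F : ℂ → ℝ, cor ψ₁ ψ₂ F p = II Ψ (fun z => F z * F (aff p.1 p.2 z)) := by
      intro F
      unfold cor II
      congr 1; funext z
      have : (aff p.1 p.2 z).im = p.1 * z.im :=
        Pool.Agent.Results.MP_a54f13_nt.TwoPointFunctions.aff_im _ _ _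
      rw [this, hΨ]
      simp only
      ring
    filter_upwards [key] with n hn
    rw [e1, e1]
    have e2 : II Ψ (fun z => (fun _ : ℂ => (1 : ℝ)) z * (fun _ : ℂ => (1 : ℝ)) (aff p.1 p.2 z)) =
        II Ψ (fun _ => 1) := by simp only [mul_one]
    rw [e2]
    exact hn
  · have e : ∀ F : ℂ → ℝ, cor ψ₁ ψ₂ F p = 0 := by
      intro F
      unfold cor
      have : ∀ z : ℂ, z.im * (ψ₁ z * F z / z.im ^ 2) *
          (ψ₂ (aff p.1 p.2 z) * F (aff p.1 p.2 z) / (aff p.1 p.2 z).im ^ 2) = 0 := by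
        intro z
        by_cases hz : z ∈ HH
        · have h3 : aff p.1 p.2 z ∉ HH := by
            intro h5
            have h6 : 0 < (aff p.1 p.2 z).im := h5
            rw [show (aff p.1 p.2 z).im = p.1 * z.im from
              Pool.Agent.Results.MP_a54f13_nt.TwoPointFunctions.aff_im _ _ _] at h6
            have h7 : 0 < z.im := hz
            exact absurd h6 (not_lt.2 (mul_nonpos_of_nonpos_of_nonneg (not_lt.1 hr) h7.le))
          rw [Pool.Agent.TH294.RS.TF.zero h2 h3]; ring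
        · rw [Pool.Agent.TH294.RS.TF.zero h1 hz]; ring
      simp only [this, integral_zero]
    refine Eventually.of_forall fun n => ?_
    rw [e, e]; linarith

/-- **Result.** Let `f n` be real eigenfunctions of the hyperbolic Laplacian on the upper half
plane, quantum uniquely ergodic, with `t n → ∞`, whose local fourth moments are asymptotically
Gaussian: `∫ φ f⁴ dμ → 3 ∫ φ dμ` for all test functions `φ`. Then the squares of `f n` at the
points `z` and `γz` are asymptotically uncorrelated in the mean over the displacements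
`γz = r z + b`: for all test functions `ψ₁, ψ₂ ≥ 0`,
`∫∫ |cor ψ₁ ψ₂ (f²) (r, b) - cor ψ₁ ψ₂ 1 (r, b)| dr db → 0`. -/
theorem result (t : ℕ → ℝ) (ht : Tendsto t atTop atTop) (f : ℕ → ℂ → ℝ)
    (hf : ∀ n, Eig (t n) (f n)) (hq : QUE t f)
    (h4 : ∀ φ, TF HH φ → Tendsto (fun n => II φ (fun z => f n z ^ 4)) atTop
        (𝓝 (3 * II φ (fun _ => 1)))) (ψ₁ ψ₂ : ℂ → ℝ) (h1 : TF HH ψ₁) (h2 : TF HH ψ₂)
    (p1 : ∀ z, 0 ≤ ψ₁ z) (p2 : ∀ z, 0 ≤ ψ₂ z) :
    Tendsto (fun n => ∫ p : ℝ × ℝ, |cor ψ₁ ψ₂ (fun z => f n z ^ 2) p -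
      cor ψ₁ ψ₂ (fun _ => 1) p|) atTop (𝓝 0) := by
  have eD : ∀ F : ℂ → ℝ, cor ψ₁ ψ₂ F = Pool.Agent.R314.JN.Fub.DD
      (fun z => ψ₁ z * F z / z.im ^ 2) (fun z => ψ₂ z * F z / z.im ^ 2) := fun F => rfl
  have fub : ∀ F : ℂ → ℝ, ContinuousOn F HH → Integrable (cor ψ₁ ψ₂ F) ∧
      ∫ p, cor ψ₁ ψ₂ F p = (∫ z, ψ₁ z * F z / z.im ^ 2) * ∫ z, ψ₂ z * F z / z.im ^ 2 := by
    intro F hF
    obtain ⟨a1, a2, a3⟩ := gd h1 hF
    obtain ⟨b1, b2, b3⟩ := gd h2 hF
    rw [eD]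
    exact Pool.Agent.R314.JN.Fub.fubini a1 b1 a2 b2 a3
  have fc : ∀ n, ContinuousOn (fun z => f n z ^ 2) HH := fun n => (hf n).1.continuousOn.pow 2
  obtain ⟨i0, v0⟩ := fub (fun _ => 1) continuousOn_const
  have pos : ∀ F : ℂ → ℝ, (∀ z, 0 ≤ F z) → ∀ p, 0 ≤ cor ψ₁ ψ₂ F p := by
    intro F hF p
    refine integral_nonneg fun z => ?_
    by_cases hz : z ∈ HH
    · have : 0 < z.im := hz
      have := p1 z; have := p2 (aff p.1 p.2 z); have := hF z; have := hF (aff p.1 p.2 z)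
      show 0 ≤ z.im * (ψ₁ z * F z / z.im ^ 2) *
        (ψ₂ (aff p.1 p.2 z) * F (aff p.1 p.2 z) / (aff p.1 p.2 z).im ^ 2)
      positivity
    · show 0 ≤ z.im * (ψ₁ z * F z / z.im ^ 2) *
        (ψ₂ (aff p.1 p.2 z) * F (aff p.1 p.2 z) / (aff p.1 p.2 z).im ^ 2)
      rw [Pool.Agent.TH294.RS.TF.zero h1 hz]; simp
  -- the total integrals
  have T : Tendsto (fun n => ∫ p, (cor ψ₁ ψ₂ (fun z => f n z ^ 2) p - cor ψ₁ ψ₂ (fun _ => 1) p))
      atTop (𝓝 0) := by
    have m1 := (mass hq h1).mul (mass hq h2)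
    have m2 := m1.sub_const (∫ p, cor ψ₁ ψ₂ (fun _ => 1) p)
    rw [v0, sub_self] at m2
    refine m2.congr fun n => ?_
    obtain ⟨i1, v1⟩ := fub _ (fc n)
    rw [integral_sub i1 i0, v1, v0]
  -- the negative parts
  have Ng : Tendsto (fun n => ∫ p, max (cor ψ₁ ψ₂ (fun _ => 1) p -
      cor ψ₁ ψ₂ (fun z => f n z ^ 2) p) 0) atTop (𝓝 (∫ _ : ℝ × ℝ, (0 : ℝ))) := by
    refine tendsto_integral_of_dominated_convergence (cor ψ₁ ψ₂ (fun _ => 1)) (fun n => ?_) i0
      (fun n => Eventually.of_forall fun p => ?_) (Eventually.of_forall fun p => ?_)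
    · obtain ⟨i1, -⟩ := fub _ (fc n)
      exact ((i0.sub i1).pos_part).aestronglyMeasurable
    · rw [Real.norm_eq_abs, abs_of_nonneg (le_max_right _ _)]
      refine max_le ?_ (pos _ (fun _ => zero_le_one) p)
      have := pos (fun z => f n z ^ 2) (fun z => sq_nonneg _) p
      linarith
    · rw [Metric.tendsto_atTop']
      intro ε hε
      obtain ⟨N, hN⟩ := eventually_atTop.1 (lower ht hf hq h4 h1 h2 p1 p2 p (half_pos hε))
      refine ⟨N, fun n hn => ?_⟩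
      rw [Real.dist_eq, sub_zero, abs_of_nonneg (le_max_right _ _)]
      have := hN n hn.le
      exact max_lt (by linarith) hε
  rw [integral_zero] at Ng
  have fin := T.add (Ng.const_mul 2)
  rw [mul_zero, add_zero] at fin
  refine fin.congr fun n => ?_
  obtain ⟨i1, -⟩ := fub _ (fc n)
  have j1 : Integrable (fun p => cor ψ₁ ψ₂ (fun z => f n z ^ 2) p - cor ψ₁ ψ₂ (fun _ => 1) p) :=
    i1.sub i0
  have j2 : Integrable (fun p => 2 * max (cor ψ₁ ψ₂ (fun _ => 1) p -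
      cor ψ₁ ψ₂ (fun z => f n z ^ 2) p) 0) := ((i0.sub i1).pos_part).const_mul 2
  rw [← integral_const_mul, ← integral_add j1 j2]
  congr 1; funext p
  rcases le_total (cor ψ₁ ψ₂ (fun z => f n z ^ 2) p) (cor ψ₁ ψ₂ (fun _ => 1) p) with h | h
  · rw [abs_of_nonpos (by linarith), max_eq_left (by linarith)]; ring
  · rw [abs_of_nonneg (by linarith), max_eq_right (by linarith)]; ring

end Pool.Agent.Results.MP_a54f13_nt.MeanDecorrelation
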