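import Pool.Agent.Results.MP_a28cf0_nt.JointNullForms
import Pool.Agent.Results.MP_a28cf0_nt.LowerBoundEqualFrequencies

/-!
# Two-point moments of order four at macroscopic distance (MP_a54f13_nt)

The plane is `ℂ`, with the upper half plane `HH` and `dμ = dx dy / y²`. `dx f z`, `dy f z` are the
partial derivatives `fderiv ℝ f z 1`, `fderiv ℝ f z I`; `TF U φ` says that `φ : ℂ → ℝ` is smooth
with compact support contained in `U`. For `r > 0` and real `b` the map `z ↦ r z + b` is an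
isometry of the hyperbolic plane; these isometries act transitively.

Proof idea. The composition of `f` with the isometry is an eigenfunction with the same eigenvalue,
and it is quantum uniquely ergodic. The null forms and the lower bound for the joint moments of two
forms of equal frequency are applied to the pair.
-/

set_option autoImplicit false
open MeasureTheory Filter Topology Complex
open scoped ContDiff

namespace Pool.Agent.Results.MP_a54f13_nt.TwoPointFunctions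

open Pool.Agent.W745.RW (TF dx dy)

/-- the open upper half plane -/
def HH : Set ℂ := {z | 0 < z.im}

/-- the eigenvalue `1/4 + t²` -/
noncomputable def ev (t : ℝ) : ℝ := 1 / 4 + t ^ 2

/-- `f` is a smooth real solution of `-y² (∂x² + ∂y²) f = (1/4 + t²) f` on the upper half plane -/
def Eig (t : ℝ) (f : ℂ → ℝ) : Prop :=
  ContDiffOn ℝ ∞ f HH ∧ ∀ z ∈ HH, -(z.im ^ 2 * (dx (dx f) z + dy (dy f) z)) = ev t * f z

/-- the operator `f ↦ lam^{-1/2} y (∂x f - i ∂y f)` -/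
noncomputable def RO (lam : ℝ) (f : ℂ → ℂ) (z : ℂ) : ℂ :=
  ((z.im / √lam : ℝ) : ℂ) * (dx f z - I * dy f z)

/-- quantum unique ergodicity in microlocal form: `∫ φ f (RO^k f) dμ → ∫ φ dμ` for `k = 0`, and
`→ 0` for `k ≥ 1` -/
def QUE (t : ℕ → ℝ) (f : ℕ → ℂ → ℝ) : Prop :=
  ∀ φ, TF HH φ → ∀ k : ℕ, Tendsto (fun n => ∫ z, ((φ z / z.im ^ 2 : ℝ) : ℂ) *
    ((f n z : ℂ) * (RO (ev (t n)))^[k] (fun w => (f n w : ℂ)) z)) atTop
    (𝓝 (if k = 0 then ((∫ z, φ z / z.im ^ 2 : ℝ) : ℂ) else 0))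

/-- the integral `∫ ψ F dμ` -/
noncomputable def II (ψ F : ℂ → ℝ) : ℝ := ∫ z, ψ z * F z / z.im ^ 2

/-- the hyperbolic inner product `⟨∇f, ∇g⟩ = y² (f_x g_x + f_y g_y)` of the gradients -/
noncomputable def gr (f g : ℂ → ℝ) (z : ℂ) : ℝ := z.im ^ 2 * (dx f z * dx g z + dy f z * dy g z)

/-- the isometry `z ↦ r z + b` -/
noncomputable def aff (r b : ℝ) (z : ℂ) : ℂ := r • z + (b : ℂ)

lemma aff_im (r b : ℝ) (z : ℂ) : (aff r b z).im = r * z.im := by
  unfold aff; simp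

lemma HHo : IsOpen HH := isOpen_lt continuous_const continuous_im

lemma aff_mem {r : ℝ} (hr : 0 < r) (b : ℝ) {z : ℂ} (hz : z ∈ HH) : aff r b z ∈ HH := by
  show 0 < (aff r b z).im
  rw [aff_im]; exact mul_pos hr hz

lemma fd_aff {E : Type*} [NormedAddCommGroup E] [NormedSpace ℝ E] (F : ℂ → E) (r b : ℝ) (z v : ℂ) :
    fderiv ℝ (fun w => F (aff r b w)) z v = r • fderiv ℝ F (aff r b z) v := by
  have h1 := fderiv_comp_smul (𝕜 := ℝ) (f := fun x : ℂ => F (x + (b : ℂ))) (x := z) r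
  have h2 : fderiv ℝ (fun x : ℂ => F (x + (b : ℂ))) (r • z) = fderiv ℝ F (r • z + (b : ℂ)) :=
    fderiv_comp_add_right _
  rw [h2] at h1
  have h3 : (fun w => F (aff r b w)) = (fun w : ℂ => (fun x : ℂ => F (x + (b : ℂ))) (r • w)) := rfl
  rw [h3, h1]
  rfl

lemma dx_aff {E : Type*} [NormedAddCommGroup E] [NormedSpace ℝ E] (F : ℂ → E) (r b : ℝ) :
    dx (fun w => F (aff r b w)) = fun z => r • dx F (aff r b z) := by
  funext z; exact fd_aff F r b z 1

lemma dy_aff {E : Type*} [NormedAddCommGroup E] [NormedSpace ℝ E] (F : ℂ → E) (r b : ℝ) :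
    dy (fun w => F (aff r b w)) = fun z => r • dy F (aff r b z) := by
  funext z; exact fd_aff F r b z I

lemma dxx_aff (F : ℂ → ℝ) (r b : ℝ) (z : ℂ) :
    dx (dx (fun w => F (aff r b w))) z = r ^ 2 * dx (dx F) (aff r b z) := by
  rw [dx_aff]
  have h := congrFun (dx_aff (fun w => r • dx F w) r b) z
  have h2 : dx (fun w => r • dx F w) (aff r b z) = r * dx (dx F) (aff r b z) := by
    show fderiv ℝ (fun w => r • dx F w) (aff r b z) 1 = _
    have e : (fun w => r • dx F w) = r • dx F := rfl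
    rw [e, fderiv_const_smul_field]; rfl
  rw [h]
  show r • dx (fun w => r • dx F w) (aff r b z) = _
  rw [h2, smul_eq_mul]; ring

lemma dyy_aff (F : ℂ → ℝ) (r b : ℝ) (z : ℂ) :
    dy (dy (fun w => F (aff r b w))) z = r ^ 2 * dy (dy F) (aff r b z) := by
  rw [dy_aff]
  have h := congrFun (dy_aff (fun w => r • dy F w) r b) z
  have h2 : dy (fun w => r • dy F w) (aff r b z) = r * dy (dy F) (aff r b z) := by
    show fderiv ℝ (fun w => r • dy F w) (aff r b z) I = _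
    have e : (fun w => r • dy F w) = r • dy F := rfl
    rw [e, fderiv_const_smul_field]; rfl
  rw [h]
  show r • dy (fun w => r • dy F w) (aff r b z) = _
  rw [h2, smul_eq_mul]; ring

lemma RO_aff (lam : ℝ) (F : ℂ → ℂ) (r b : ℝ) :
    RO lam (fun w => F (aff r b w)) = fun z => RO lam F (aff r b z) := by
  funext z
  unfold RO
  rw [dx_aff, dy_aff, aff_im]
  simp only [real_smul]
  push_cast
  ring

lemma RO_it (lam : ℝ) (F : ℂ → ℂ) (r b : ℝ) (k : ℕ) :
    (RO lam)^[k] (fun w => F (aff r b w)) = fun z => (RO lam)^[k] F (aff r b z) := by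
  induction k generalizing F with
  | zero => rfl
  | succ k ih =>
    rw [Function.iterate_succ_apply, RO_aff, ih, Function.iterate_succ_apply]

lemma aff_smooth (r b : ℝ) : ContDiff ℝ ∞ (aff r b) := by
  unfold aff
  exact (contDiff_id.const_smul r).add contDiff_const

lemma Eig_aff {t : ℝ} {f : ℂ → ℝ} (hf : Eig t f) {r : ℝ} (hr : 0 < r) (b : ℝ) :
    Eig t (fun z => f (aff r b z)) := by
  refine ⟨hf.1.comp (aff_smooth r b).contDiffOn fun z hz => aff_mem hr b hz, fun z hz => ?_⟩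
  rw [dxx_aff, dyy_aff]
  have := hf.2 _ (aff_mem hr b hz)
  rw [aff_im] at this
  linarith

/-- change of variables -/
lemma int_aff {E : Type*} [NormedAddCommGroup E] [NormedSpace ℝ E] (G : ℂ → E) {r : ℝ}
    (hr : 0 < r) (b : ℝ) : ∫ z, G (aff r b z) = (r ^ 2)⁻¹ • ∫ z, G z := by
  have h1 := Measure.integral_comp_smul (μ := (volume : Measure ℂ)) (fun w => G (w + (b : ℂ))) r
  have h2 : ∫ w, G (w + (b : ℂ)) = ∫ w, G w := integral_add_right_eq_self G (b : ℂ)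
  rw [h2, Complex.finrank_real_complex, abs_of_pos (by positivity)] at h1
  exact h1

/-- the inverse isometry -/
lemma aff_inv {r : ℝ} (hr : 0 < r) (b : ℝ) (z : ℂ) : aff r⁻¹ (-(r⁻¹ * b)) (aff r b z) = z := by
  unfold aff
  simp only [real_smul]
  have : (r : ℂ) ≠ 0 := by exact_mod_cast hr.ne'
  push_cast
  field_simp
  ring

lemma aff_inv' {r : ℝ} (hr : 0 < r) (b : ℝ) (z : ℂ) : aff r b (aff r⁻¹ (-(r⁻¹ * b)) z) = z := by
  unfold aff
  simp only [real_smul]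
  have : (r : ℂ) ≠ 0 := by exact_mod_cast hr.ne'
  push_cast
  field_simp
  ring

lemma TF_aff {φ : ℂ → ℝ} (hφ : TF HH φ) {r : ℝ} (hr : 0 < r) (b : ℝ) :
    TF HH (fun z => φ (aff r b z)) := by
  have hc : Continuous (aff r⁻¹ (-(r⁻¹ * b))) := (aff_smooth _ _).continuous
  have hK : IsCompact (aff r⁻¹ (-(r⁻¹ * b)) '' tsupport φ) := hφ.2.1.isCompact.image hc
  have hsub : tsupport (fun z => φ (aff r b z)) ⊆ aff r⁻¹ (-(r⁻¹ * b)) '' tsupport φ := by
    refine closure_minimal (fun z hz => ?_) hK.isClosed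
    refine ⟨aff r b z, subset_tsupport _ hz, aff_inv hr b z⟩
  refine ⟨hφ.1.comp (aff_smooth r b), HasCompactSupport.of_support_subset_isCompact hK
    ((subset_tsupport _).trans hsub), ?_⟩
  intro z hz
  obtain ⟨w, hw, rfl⟩ := hsub hz
  exact aff_mem (inv_pos.2 hr) _ (hφ.2.2 hw)

/-- invariance of the area -/
lemma int_inv {φ : ℂ → ℝ} {r : ℝ} (hr : 0 < r) (b : ℝ) (F : ℂ → ℂ) :
    ∫ z, ((φ z / z.im ^ 2 : ℝ) : ℂ) * F (aff r b z) =
      ∫ z, ((φ (aff r⁻¹ (-(r⁻¹ * b)) z) / z.im ^ 2 : ℝ) : ℂ) * F z := by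
  have h1 := int_aff (fun w => ((r ^ 2 : ℝ) : ℂ) *
    (((φ (aff r⁻¹ (-(r⁻¹ * b)) w) / w.im ^ 2 : ℝ) : ℂ) * F w)) hr b
  rw [integral_const_mul, integral_const_mul] at h1
  have h2 : (r ^ 2)⁻¹ • (((r ^ 2 : ℝ) : ℂ) *
      ∫ z, ((φ (aff r⁻¹ (-(r⁻¹ * b)) z) / z.im ^ 2 : ℝ) : ℂ) * F z) =
      ∫ z, ((φ (aff r⁻¹ (-(r⁻¹ * b)) z) / z.im ^ 2 : ℝ) : ℂ) * F z := by
    rw [real_smul, ← mul_assoc, ← ofReal_mul, inv_mul_cancel₀ (by positivity), ofReal_one, one_mul]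
  rw [h2] at h1
  rw [← h1, ← integral_const_mul]
  congr 1; funext z
  rw [aff_inv hr b z, aff_im]
  have hr' : (r : ℂ) ≠ 0 := by exact_mod_cast hr.ne'
  push_cast
  rw [mul_pow, ← mul_assoc]
  congr 1
  by_cases hz : (z.im : ℂ) = 0
  · rw [hz]; simp
  · field_simp

lemma QUE_aff {t : ℕ → ℝ} {f : ℕ → ℂ → ℝ} (h : QUE t f) {r : ℝ} (hr : 0 < r) (b : ℝ) :
    QUE t (fun n z => f n (aff r b z)) := by
  intro φ hφ k
  have hφ' := TF_aff hφ (inv_pos.2 hr) (-(r⁻¹ * b))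
  have h1 := h _ hφ' k
  have e1 : ∀ n, ∫ z, ((φ z / z.im ^ 2 : ℝ) : ℂ) * ((f n (aff r b z) : ℂ) *
      (RO (ev (t n)))^[k] (fun w => (f n (aff r b w) : ℂ)) z) =
      ∫ z, ((φ (aff r⁻¹ (-(r⁻¹ * b)) z) / z.im ^ 2 : ℝ) : ℂ) *
        ((f n z : ℂ) * (RO (ev (t n)))^[k] (fun w => (f n w : ℂ)) z) := by
    intro n
    rw [← int_inv hr b (fun z => (f n z : ℂ) * (RO (ev (t n)))^[k] (fun w => (f n w : ℂ)) z)]
    congr 1; funext z
    have := congrFun (RO_it (ev (t n)) (fun w => (f n w : ℂ)) r b k) z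
    rw [this]
  have e2 : ((∫ z, φ (aff r⁻¹ (-(r⁻¹ * b)) z) / z.im ^ 2 : ℝ) : ℂ) =
      ((∫ z, φ z / z.im ^ 2 : ℝ) : ℂ) := by
    have := int_inv (φ := φ) hr b (fun _ => 1)
    simp only [mul_one] at this
    rw [← integral_complex_ofReal, ← integral_complex_ofReal]
    exact this.symm
  rw [e2] at h1
  refine h1.congr fun n => (e1 n).symm

lemma II_aff {φ F : ℂ → ℝ} {r : ℝ} (hr : 0 < r) (b : ℝ) :
    II φ (fun z => F (aff r b z)) = II (fun z => φ (aff r⁻¹ (-(r⁻¹ * b)) z)) F := by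
  have := int_inv (φ := φ) hr b (fun z => (F z : ℂ))
  have e1 : ((II φ (fun z => F (aff r b z)) : ℝ) : ℂ) =
      ∫ z, ((φ z / z.im ^ 2 : ℝ) : ℂ) * (F (aff r b z) : ℂ) := by
    unfold II
    rw [← integral_complex_ofReal]
    congr 1; funext z; push_cast; ring
  have e2 : ((II (fun z => φ (aff r⁻¹ (-(r⁻¹ * b)) z)) F : ℝ) : ℂ) =
      ∫ z, ((φ (aff r⁻¹ (-(r⁻¹ * b)) z) / z.im ^ 2 : ℝ) : ℂ) * (F z : ℂ) := by
    unfold II
    rw [← integral_complex_ofReal]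
    congr 1; funext z; push_cast; ring
  exact_mod_cast e1.trans (this.trans e2.symm)

lemma gr_aff (f : ℂ → ℝ) (r b : ℝ) (z : ℂ) :
    gr (fun w => f (aff r b w)) (fun w => f (aff r b w)) z = gr f f (aff r b z) := by
  unfold gr
  rw [dx_aff, dy_aff, aff_im]
  simp only [smul_eq_mul]
  ring

lemma II_one (ψ : ℂ → ℝ) : II ψ (fun _ => 1) = ∫ z, ψ z / z.im ^ 2 := by
  unfold II; simp only [mul_one]

/-- **Result.** Let `f n` be real eigenfunctions of the hyperbolic Laplacian on the upper half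
plane, quantum uniquely ergodic, with `t n → ∞`. Let `γ z = r z + b`, `r > 0`, `b` real, be an
isometry and `ψ` a test function. Put `λ = 1/4 + t²`.

(1) `∫ ψ(z) [f(z)² f(γz)² + (|∇f|²(z) |∇f|²(γz) - 2 ⟨∇f, ∇(f ∘ γ)⟩(z)²) / λ²] dμ → ∫ ψ dμ`.

(2) If `ψ ≥ 0` then for every `ε > 0`, for all large `n`,
`|∫ ψ(z) f(z)² f(γz)² dμ - ∫ ψ dμ| ≤ ∫ ψ(z) |∇f|²(z) |∇f|²(γz) / λ² dμ + ε`.

(3) If the local fourth moments of `f n` are asymptotically Gaussian, `∫ φ f⁴ dμ → 3 ∫ φ dμ` for all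
test functions `φ`, then `liminf ∫ ψ(z) f(z)² f(γz)² dμ ≥ ∫ ψ dμ` for all test functions `ψ ≥ 0`. -/
theorem result (t : ℕ → ℝ) (ht : Tendsto t atTop atTop) (f : ℕ → ℂ → ℝ)
    (hf : ∀ n, Eig (t n) (f n)) (hq : QUE t f) (r b : ℝ) (hr : 0 < r) (ψ : ℂ → ℝ)
    (hψ : TF HH ψ) :
    Tendsto (fun n => II ψ (fun z => f n z ^ 2 * f n (aff r b z) ^ 2 +
      (gr (f n) (f n) z * gr (f n) (f n) (aff r b z) -
        2 * gr (f n) (fun w => f n (aff r b w)) z ^ 2) / ev (t n) ^ 2)) atTop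
      (𝓝 (II ψ (fun _ => 1))) ∧
    ((∀ z, 0 ≤ ψ z) → ∀ ε > 0, ∀ᶠ n in atTop,
      |II ψ (fun z => f n z ^ 2 * f n (aff r b z) ^ 2) - II ψ (fun _ => 1)| ≤
        II ψ (fun z => gr (f n) (f n) z * gr (f n) (f n) (aff r b z) / ev (t n) ^ 2) + ε) ∧
    ((∀ φ, TF HH φ → Tendsto (fun n => II φ (fun z => f n z ^ 4)) atTop
        (𝓝 (3 * II φ (fun _ => 1)))) →
      (∀ z, 0 ≤ ψ z) → ∀ ε > 0, ∀ᶠ n in atTop,
        II ψ (fun _ => 1) - ε ≤ II ψ (fun z => f n z ^ 2 * f n (aff r b z) ^ 2)) := by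
  have hg : ∀ n, Eig (t n) (fun z => f n (aff r b z)) := fun n => Eig_aff (hf n) hr b
  have hqg : QUE t (fun n z => f n (aff r b z)) := QUE_aff hq hr b
  obtain ⟨K1, K2, -⟩ := Pool.Agent.Results.MP_a28cf0_nt.JointNullForms.result t t ht ht f
    (fun n z => f n (aff r b z)) hf hg hq hqg ψ hψ
  have e1 : ∀ n z, Pool.Agent.Results.MP_a28cf0_nt.JointNullForms.gr
      (fun w => f n (aff r b w)) (fun w => f n (aff r b w)) z = gr (f n) (f n) (aff r b z) :=
    fun n z => gr_aff (f n) r b z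
  refine ⟨?_, fun h0 ε hε => ?_, fun h4 h0 ε hε => ?_⟩
  · rw [II_one]
    refine K1.congr fun n => ?_
    show II ψ _ = II ψ _
    congr 1; funext z
    rw [e1, sq (ev (t n))]
    rfl
  · filter_upwards [K2 h0 ε hε] with n hn
    rw [II_one]
    simp only [e1] at hn
    rw [sq (ev (t n))]
    exact hn
  · have hpos := fun n => Pool.Agent.Results.MP_a28cf0_nt.LowerBoundEqualFrequencies.ev_pos (t n)
    have hr1 : Tendsto (fun n => Pool.Agent.Results.MP_a28cf0_nt.LowerBoundEqualFrequencies.ev (t n) /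
        Pool.Agent.Results.MP_a28cf0_nt.LowerBoundEqualFrequencies.ev (t n)) atTop (𝓝 1) := by
      refine tendsto_const_nhds.congr fun n => ?_
      rw [div_self (hpos n).ne']
    obtain ⟨-, L⟩ := Pool.Agent.Results.MP_a28cf0_nt.LowerBoundEqualFrequencies.result t t ht ht f
      (fun n z => f n (aff r b z)) hf hg hq hqg hr1 ψ hψ h0
    refine L (h4 ψ hψ) ?_ ε hε
    have h5 := h4 _ (TF_aff hψ (inv_pos.2 hr) (-(r⁻¹ * b)))
    refine ⟨3 * II (fun z => ψ (aff r⁻¹ (-(r⁻¹ * b)) z)) (fun _ => 1) + 1, ?_⟩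
    filter_upwards [h5.eventually (gt_mem_nhds (lt_add_one _))] with n hn
    have e2 := II_aff (φ := ψ) (F := fun z => f n z ^ 4) hr b
    show II ψ (fun z => f n (aff r b z) ^ 4) ≤ _
    rw [e2]
    exact hn.le

end Pool.Agent.Results.MP_a54f13_nt.TwoPointFunctions
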